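import Mathlib
import Pool.Agent.H91.OPP.TTB

/-!
# Module CUPD: the cup product with the label cocycle commutes with the coboundary
-/

set_option autoImplicit false

namespace Pool.OPP

theorem cupd_dvd : ∀ a b c : ZMod 3,
    (3 : ℤ) ∣ ((b - a).valMinAbs + (c - b).valMinAbs - (c - a).valMinAbs) := by decide

theorem cupd_val : ∀ a b : ZMod 3,
    (3 : ℤ) ∣ ((b - a).valMinAbs - ((b.val : ℤ) - (a.val : ℤ))) := by decide

theorem cupd_three {X : Type} (l : X → ZMod 3) (x y z : X) :
    3 * e3 l x y z = la l x y + la l y z - la l x z := by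
  unfold e3
  exact Int.mul_ediv_cancel' (cupd_dvd (l x) (l y) (l z))

theorem cupd_coc {X : Type} (l : X → ZMod 3) (w x y z : X) :
    e3 l x y z - e3 l w y z + e3 l w x z = e3 l w x y := by
  have h1 := cupd_three l x y z
  have h2 := cupd_three l w y z
  have h3 := cupd_three l w x z
  have h4 := cupd_three l w x y
  linarith

theorem cupd_la_pb {X : Type} (l : X → ZMod 3) (t : X → X) (c : ZMod 3)
    (h : ∀ x, l (t x) = l x + c) (x y : X) : la l (t x) (t y) = la l x y := by
  unfold la
  rw [h, h]
  congr 1
  ring

theorem cupd_del_smul {X : Type} (c : ℤ) (φ : List X → ℤ) (k : List X) :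
    del (fun l => c * φ l) k = c * del φ k := by
  induction k generalizing φ with
  | nil => simp [del]
  | cons x l ih =>
    simp only [del]
    rw [ih (fun l' => φ (x :: l'))]
    ring

theorem cupd : S_CUPD := by
  intro X l
  refine ⟨?_, cupd_three l, ?_, ?_⟩
  · intro φ h0 k
    match k with
    | [] => rfl
    | [w] => simp [del, cup2]
    | [w, x] => simp [del, cup2]
    | [w, x, y] => simp [del, cup2, h0]
    | w :: x :: y :: z :: k =>
      have hc := cupd_coc l w x y z
      have e1 : del (fun l' => cup2 (e3 l) φ (w :: x :: y :: l')) (z :: k)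
          = e3 l w x y * (φ (y :: k) - del (fun l' => φ (y :: z :: l')) k) := by
        have : (fun l' => cup2 (e3 l) φ (w :: x :: y :: l')) =
            fun l' => e3 l w x y * φ (y :: l') := by
          funext l'; rfl
        rw [this, cupd_del_smul]
        rfl
      have e2 : del (cup2 (e3 l) φ) (w :: x :: y :: z :: k) =
          e3 l x y z * φ (z :: k) - (e3 l w y z * φ (z :: k) - (e3 l w x z * φ (z :: k) -
            del (fun l' => cup2 (e3 l) φ (w :: x :: y :: l')) (z :: k))) := rfl
      have e3' : cup2 (e3 l) (del φ) (w :: x :: y :: z :: k) =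
          e3 l w x y * (φ (z :: k) - (φ (y :: k) - del (fun l' => φ (y :: z :: l')) k)) := rfl
      rw [e2, e1, e3']
      linear_combination φ (z :: k) * hc
  · intro x y
    obtain ⟨k, hk⟩ := cupd_val (l x) (l y)
    refine ⟨k, ?_⟩
    unfold la
    linarith
  · intro t c h φ
    constructor
    · funext k
      match k with
      | [] => rfl
      | [x] => rfl
      | [x, y] => rfl
      | x :: y :: z :: k =>
        change e3 l (t x) (t y) (t z) * φ (t z :: k.map t) = e3 l x y z * φ (t z :: k.map t)
        unfold e3
        rw [cupd_la_pb l t c h, cupd_la_pb l t c h, cupd_la_pb l t c h]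
    · funext k
      match k with
      | [] => rfl
      | [x] => rfl
      | x :: y :: k =>
        change la l (t x) (t y) * φ (t y :: k.map t) = la l x y * φ (t y :: k.map t)
        rw [cupd_la_pb l t c h]

end Pool.OPP
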