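import Mathlib
import Pool.Agent.H7.OPP.Stmts

/-!
# Module KCO: the transition function is a cocycle up to small errors
-/

set_option autoImplicit false

open scoped Topology ComplexConjugate Uniformity

namespace Pool.OPP

theorem KCO_prod {ι : Type} (s : Finset ι) (x y : ι → ℂ) (hx : ∀ v ∈ s, ‖x v‖ ≤ 1)
    (hy : ∀ v ∈ s, ‖y v‖ ≤ 1) :
    ‖∏ v ∈ s, x v - ∏ v ∈ s, y v‖ ≤ ∑ v ∈ s, ‖x v - y v‖ := by
  classical
  induction s using Finset.induction_on with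
  | empty => simp
  | insert a s ha ih =>
    rw [Finset.prod_insert ha, Finset.prod_insert ha, Finset.sum_insert ha]
    have h1 : ‖∏ v ∈ s, x v‖ ≤ 1 := by
      rw [norm_prod]
      exact Finset.prod_le_one (fun _ _ => norm_nonneg _)
        (fun v hv => hx v (Finset.mem_insert_of_mem hv))
    have h2 : x a * ∏ v ∈ s, x v - y a * ∏ v ∈ s, y v = (x a - y a) * ∏ v ∈ s, x v +
        y a * (∏ v ∈ s, x v - ∏ v ∈ s, y v) := by ring
    rw [h2]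
    refine (norm_add_le _ _).trans ?_
    rw [norm_mul, norm_mul]
    have h3 := ih (fun v hv => hx v (Finset.mem_insert_of_mem hv))
      (fun v hv => hy v (Finset.mem_insert_of_mem hv))
    have h4 := hy a (Finset.mem_insert_self a s)
    have h5 : ‖x a - y a‖ * ‖∏ v ∈ s, x v‖ ≤ ‖x a - y a‖ :=
      mul_le_of_le_one_right (norm_nonneg _) h1
    have h6 : ‖y a‖ * ‖∏ v ∈ s, x v - ∏ v ∈ s, y v‖ ≤ ‖∏ v ∈ s, x v - ∏ v ∈ s, y v‖ :=
      mul_le_of_le_one_left (norm_nonneg _) h4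
    linarith

theorem KCO_pow (x y : ℂ) (hx : ‖x‖ ≤ 1) (hy : ‖y‖ ≤ 1) (m : ℕ) :
    ‖x ^ m - y ^ m‖ ≤ m * ‖x - y‖ := by
  have h := KCO_prod (Finset.range m) (fun _ => x) (fun _ => y) (fun _ _ => hx) (fun _ _ => hy)
  simpa using h

theorem KCO_ph_norm (z : ℂ) : ‖ph z‖ = 1 := by
  unfold ph
  split_ifs with h
  · exact norm_one
  · rw [norm_div, Complex.norm_real, norm_norm, div_self (norm_ne_zero_iff.2 h)]

theorem KCO_ph_sub (z : ℂ) : ‖ph z - z‖ = |‖z‖ - 1| := by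
  unfold ph
  split_ifs with h
  · rw [h]; simp
  · have hn : ‖z‖ ≠ 0 := norm_ne_zero_iff.2 h
    have hc : ((‖z‖ : ℝ) : ℂ) ≠ 0 := by exact_mod_cast hn
    have : z / ((‖z‖ : ℝ) : ℂ) - z = (z / ((‖z‖ : ℝ) : ℂ)) * ((1 - ‖z‖ : ℝ) : ℂ) := by
      push_cast
      field_simp
    rw [this, norm_mul, norm_div, Complex.norm_real, Complex.norm_real, norm_norm, div_self hn,
      one_mul, Real.norm_eq_abs, abs_sub_comm]

theorem KCO_coord (ξ : II → ℂ) (h : ip ξ ξ = 1) (i : II) : ‖ξ i‖ ≤ 1 := by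
  have h1 : ip ξ ξ = ((∑ i, ‖ξ i‖ ^ 2 : ℝ) : ℂ) := by
    unfold ip
    push_cast
    refine Finset.sum_congr rfl fun i _ => ?_
    rw [← Complex.conj_mul']
  rw [h1] at h
  have h2 : ∑ i, ‖ξ i‖ ^ 2 = 1 := by exact_mod_cast h
  have h3 : ‖ξ i‖ ^ 2 ≤ ∑ i, ‖ξ i‖ ^ 2 :=
    Finset.single_le_sum (f := fun i => ‖ξ i‖ ^ 2) (fun i _ => by positivity) (Finset.mem_univ i)
  rw [h2] at h3
  nlinarith [norm_nonneg (ξ i)]

theorem KCO_one (ξ ξ' ξ'' : II → ℂ) (e : ℝ) (he : 0 < e) (he1 : e ≤ 1) (h : ip ξ ξ = 1)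
    (hab : |‖ip ξ ξ'‖ - 1| < e) (hbc : |‖ip ξ' ξ''‖ - 1| < e) (hac : |‖ip ξ ξ''‖ - 1| < e)
    (hc : ∀ i, ‖ξ'' i - ip ξ' ξ'' * ξ' i‖ < e) :
    ‖ph (ip ξ ξ') * ph (ip ξ' ξ'') - ph (ip ξ ξ'')‖ ≤ (4 + Fintype.card II) * e := by
  have h1 : ‖ip ξ ξ' * ip ξ' ξ'' - ip ξ ξ''‖ ≤ Fintype.card II * e := by
    have h2 : ip ξ ξ'' - ip ξ ξ' * ip ξ' ξ'' = ∑ i, conj (ξ i) * (ξ'' i - ip ξ' ξ'' * ξ' i) := by
      have : ip ξ ξ' * ip ξ' ξ'' = ∑ i, conj (ξ i) * (ip ξ' ξ'' * ξ' i) := by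
        rw [show ip ξ ξ' = ∑ i, conj (ξ i) * ξ' i from rfl, Finset.sum_mul]
        refine Finset.sum_congr rfl fun i _ => ?_
        ring
      rw [this, show ip ξ ξ'' = ∑ i, conj (ξ i) * ξ'' i from rfl, ← Finset.sum_sub_distrib]
      refine Finset.sum_congr rfl fun i _ => ?_
      ring
    rw [norm_sub_rev, h2]
    refine (norm_sum_le _ _).trans ?_
    have h3 : ∀ i ∈ (Finset.univ : Finset II), ‖conj (ξ i) * (ξ'' i - ip ξ' ξ'' * ξ' i)‖ ≤ e := by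
      intro i _
      rw [norm_mul, RCLike.norm_conj]
      have h4 := KCO_coord ξ h i
      calc ‖ξ i‖ * ‖ξ'' i - ip ξ' ξ'' * ξ' i‖ ≤ 1 * e :=
            mul_le_mul h4 (hc i).le (norm_nonneg _) zero_le_one
        _ = e := one_mul _
    refine (Finset.sum_le_card_nsmul _ _ e h3).trans ?_
    rw [nsmul_eq_mul, Finset.card_univ]
  have ha := KCO_ph_sub (ip ξ ξ')
  have hb := KCO_ph_sub (ip ξ' ξ'')
  have hcc := KCO_ph_sub (ip ξ ξ'')
  have na := KCO_ph_norm (ip ξ ξ')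
  have nb := KCO_ph_norm (ip ξ' ξ'')
  generalize ip ξ ξ' = a at *
  generalize ip ξ' ξ'' = b at *
  generalize ip ξ ξ'' = c at *
  have hdec : ph a * ph b - ph c = (ph a - a) * ph b + a * (ph b - b) + (a * b - c) - (ph c - c) := by
    ring
  have hnorm_a : ‖a‖ ≤ 2 := by
    have := (abs_lt.1 hab).2
    linarith
  rw [hdec]
  have t1 : ‖(ph a - a) * ph b‖ ≤ e := by
    rw [norm_mul, nb, mul_one, ha]; exact hab.le
  have t2 : ‖a * (ph b - b)‖ ≤ 2 * e := by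
    rw [norm_mul, hb]
    exact mul_le_mul hnorm_a hbc.le (abs_nonneg _) (by norm_num)
  have t3 : ‖ph c - c‖ ≤ e := by rw [hcc]; exact hac.le
  calc ‖(ph a - a) * ph b + a * (ph b - b) + (a * b - c) - (ph c - c)‖
      ≤ ‖(ph a - a) * ph b + a * (ph b - b) + (a * b - c)‖ + ‖ph c - c‖ := norm_sub_le _ _
    _ ≤ (‖(ph a - a) * ph b + a * (ph b - b)‖ + ‖a * b - c‖) + ‖ph c - c‖ := by
        gcongr; exact norm_add_le _ _
    _ ≤ ((‖(ph a - a) * ph b‖ + ‖a * (ph b - b)‖) + ‖a * b - c‖) + ‖ph c - c‖ := by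
        gcongr; exact norm_add_le _ _
    _ ≤ (4 + Fintype.card II) * e := by
        rw [add_mul]
        linarith

theorem sKco (h1 : SFrc) : SKco := by
  intro θ ε hε
  obtain ⟨M, hM⟩ : ∃ M : ℝ, M = ((∑ v : Fin (hh + 1), nn v / 3 : ℕ) : ℝ) * (4 + Fintype.card II) + 1 :=
    ⟨_, rfl⟩
  have hM0 : 0 < M := by rw [hM]; positivity
  obtain ⟨e, he⟩ : ∃ e : ℝ, e = min 1 (ε / M) := ⟨_, rfl⟩
  have he0 : 0 < e := by rw [he]; positivity
  have he1 : e ≤ 1 := by rw [he]; exact min_le_left _ _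
  have heM : e * M ≤ ε := by
    have : e ≤ ε / M := by rw [he]; exact min_le_right _ _
    rwa [le_div_iff₀ hM0] at this
  obtain ⟨n, δ, hδ, hfrc⟩ := h1 θ e he0
  refine ⟨n, δ, hδ, ?_⟩
  intro x hx x' hx' x'' hx'' c1 c2 c3 ξ c ξ' c' ξ'' c'' f1 f2 f3
  have g1 := (hfrc x hx x' hx' c1 ξ c ξ' c' f1 f2).2
  have g2 := (hfrc x' hx' x'' hx'' c2 ξ' c' ξ'' c'' f2 f3).2
  have g3 := (hfrc x hx x'' hx'' c3 ξ c ξ'' c'' f1 f3).2
  unfold kk
  rw [← Finset.prod_mul_distrib]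
  refine lt_of_le_of_lt (KCO_prod _ _ _ ?_ ?_) ?_
  · intro v _
    rw [norm_mul, norm_pow, norm_pow, KCO_ph_norm, KCO_ph_norm]
    simp
  · intro v _
    rw [norm_pow, KCO_ph_norm]
    simp
  · have key : ∀ v ∈ (Finset.univ : Finset (Fin (hh + 1))),
        ‖ph (ip (ξ v) (ξ' v)) ^ (nn v / 3) * ph (ip (ξ' v) (ξ'' v)) ^ (nn v / 3) -
          ph (ip (ξ v) (ξ'' v)) ^ (nn v / 3)‖ ≤
        ((nn v / 3 : ℕ) : ℝ) * ((4 + Fintype.card II) * e) := by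
      intro v _
      rw [← mul_pow]
      refine (KCO_pow _ _ ?_ ?_ _).trans ?_
      · rw [norm_mul, KCO_ph_norm, KCO_ph_norm, mul_one]
      · rw [KCO_ph_norm]
      · refine mul_le_mul_of_nonneg_left ?_ (Nat.cast_nonneg _)
        exact KCO_one _ _ _ e he0 he1 (f1.1 v) (g1 v).2 (g2 v).2 (g3 v).2 (g2 v).1
    refine lt_of_le_of_lt (Finset.sum_le_sum key) ?_
    rw [← Finset.sum_mul]
    have : (∑ v : Fin (hh + 1), ((nn v / 3 : ℕ) : ℝ)) * ((4 + Fintype.card II) * e) =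
        (M - 1) * e := by
      rw [hM]
      push_cast
      ring
    rw [this]
    nlinarith

end Pool.OPP
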