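import Mathlib
import Pool.Agent.H91.OPP.TTB

/-!
# Module LAB: labels of equivariant complex functions
-/

set_option autoImplicit false

namespace Pool.OPP

namespace LABAux

theorem om_re : om.re = -1 / 2 := by
  unfold om
  have h : (2 * Real.pi * Complex.I / 3 : ℂ) = ((2 * Real.pi / 3 : ℝ) : ℂ) * Complex.I := by
    push_cast; ring
  rw [h, Complex.exp_ofReal_mul_I_re]
  rw [show (2 * Real.pi / 3 : ℝ) = Real.pi - Real.pi / 3 by ring, Real.cos_pi_sub,
    Real.cos_pi_div_three]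
  norm_num

theorem om_im : om.im = √3 / 2 := by
  unfold om
  have h : (2 * Real.pi * Complex.I / 3 : ℂ) = ((2 * Real.pi / 3 : ℝ) : ℂ) * Complex.I := by
    push_cast; ring
  rw [h, Complex.exp_ofReal_mul_I_im]
  rw [show (2 * Real.pi / 3 : ℝ) = Real.pi - Real.pi / 3 by ring, Real.sin_pi_sub,
    Real.sin_pi_div_three]

/-- the three real linear functionals -/
noncomputable def RR (k : ZMod 3) (z : ℂ) : ℝ := (z * om ^ ((-k).val)).re

theorem RR_zero (z : ℂ) : RR 0 z = z.re := by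
  unfold RR
  rw [show ((-(0 : ZMod 3)).val) = 0 from rfl]
  simp

theorem RR_two (z : ℂ) : RR 2 z = -z.re / 2 - √3 / 2 * z.im := by
  unfold RR
  rw [show ((-(2 : ZMod 3)).val) = 1 from rfl]
  simp only [pow_one, Complex.mul_re, om_re, om_im]
  ring

theorem RR_one (z : ℂ) : RR 1 z = -z.re / 2 + √3 / 2 * z.im := by
  unfold RR
  rw [show ((-(1 : ZMod 3)).val) = 2 from rfl]
  have h3 : √3 * √3 = 3 := Real.mul_self_sqrt (by norm_num)
  simp only [pow_two, Complex.mul_re, Complex.mul_im, om_re, om_im]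
  linear_combination (-(z.re) / 4) * h3

theorem RR_om : ∀ (k : ZMod 3) (z : ℂ), RR (k + 1) (om * z) = RR k z := by
  intro k z
  have h3 := om_pow_three
  have key : ∀ k : ZMod 3, om * om ^ ((-(k + 1)).val) = om ^ ((-k).val) := by
    intro k
    fin_cases k
    · change om * om ^ 2 = om ^ 0
      linear_combination h3
    · change om * om ^ 1 = om ^ 2
      ring
    · change om * om ^ 0 = om ^ 1
      ring
  unfold RR
  rw [← key k]
  congr 1
  ring

theorem RR_sub (k : ZMod 3) (z w : ℂ) : RR k z - RR k w = RR k (z - w) := by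
  unfold RR
  rw [sub_mul, Complex.sub_re]

theorem RR_le (k : ZMod 3) (z : ℂ) : |RR k z| ≤ ‖z‖ := by
  unfold RR
  refine (Complex.abs_re_le_norm _).trans ?_
  rw [norm_mul, norm_pow, norm_om, one_pow, mul_one]

theorem RR_sum (z : ℂ) : RR 0 z + RR 1 z + RR 2 z = 0 := by
  rw [RR_zero, RR_one, RR_two]; ring

theorem RR_sq (z : ℂ) : RR 0 z ^ 2 + RR 1 z ^ 2 + RR 2 z ^ 2 = 3 / 2 * ‖z‖ ^ 2 := by
  have h3 : √3 * √3 = 3 := Real.mul_self_sqrt (by norm_num)
  rw [RR_zero, RR_one, RR_two, Complex.sq_norm, Complex.normSq_apply]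
  linear_combination (z.im ^ 2 / 2) * h3

/-- the sector property -/
def PSec (k : ZMod 3) (z : ℂ) : Prop := RR (k + 1) z ≤ RR k z ∧ RR (k + 2) z < RR k z

theorem PSec_unique {k k' : ZMod 3} {z : ℂ} (h : PSec k z) (h' : PSec k' z) : k = k' := by
  have hc : ∀ k k' : ZMod 3, k' = k ∨ k' = k + 1 ∨ k' = k + 2 := by decide
  rcases hc k k' with rfl | rfl | rfl
  · rfl
  · exfalso
    have h1 := h.1
    have h2 := h'.2
    rw [show k + 1 + 2 = k by rw [add_assoc]; change k + 0 = k; exact add_zero k] at h2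
    linarith
  · exfalso
    have h1 := h.2
    have h2 := h'.1
    rw [show k + 2 + 1 = k by rw [add_assoc]; change k + 0 = k; exact add_zero k] at h2
    linarith

theorem PSec_exists {z : ℂ} (hz : z ≠ 0) : ∃ k, PSec k z := by
  by_contra hcon
  push Not at hcon
  have h0 := hcon 0
  have h1 := hcon 1
  have h2 := hcon 2
  unfold PSec at h0 h1 h2
  rw [show (0 : ZMod 3) + 1 = 1 from rfl, show (0 : ZMod 3) + 2 = 2 from rfl] at h0
  rw [show (1 : ZMod 3) + 1 = 2 from rfl, show (1 : ZMod 3) + 2 = 0 from rfl] at h1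
  rw [show (2 : ZMod 3) + 1 = 0 from rfl, show (2 : ZMod 3) + 2 = 1 from rfl] at h2
  have hs := RR_sum z
  have hq := RR_sq z
  have hpos : 0 < ‖z‖ := norm_pos_iff.2 hz
  have heq : RR 0 z = RR 1 z ∧ RR 1 z = RR 2 z := by
    generalize RR 0 z = a at *
    generalize RR 1 z = b at *
    generalize RR 2 z = c at *
    by_cases e0 : b ≤ a
    · by_cases e1 : c ≤ b
      · by_cases e2 : a ≤ c
        · constructor <;> linarith
        · exfalso; push Not at e2; exact h0 ⟨e0, e2⟩
      · by_cases e2 : c < a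
        · exfalso; exact h0 ⟨e0, e2⟩
        · push Not at e1 e2
          exfalso; exact h2 ⟨e2, e1⟩
    · push Not at e0
      by_cases e1 : c ≤ b
      · exfalso; exact h1 ⟨e1, e0⟩
      · push Not at e1
        exfalso; exact h2 ⟨by linarith, e1⟩
  obtain ⟨ha, hb⟩ := heq
  have h00 : RR 0 z = 0 := by linarith
  have h11 : RR 1 z = 0 := by linarith
  have h22 : RR 2 z = 0 := by linarith
  rw [h00, h11, h22] at hq
  nlinarith [mul_pos hpos hpos]

open Classical in
/-- the sector -/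
noncomputable def sec (z : ℂ) : ZMod 3 := if h : ∃ k, PSec k z then h.choose else 0

theorem sec_spec {z : ℂ} (hz : z ≠ 0) : PSec (sec z) z := by
  have h := PSec_exists hz
  unfold sec
  rw [dif_pos h]
  exact h.choose_spec

theorem om_ne_zero : om ≠ 0 := by
  intro h
  have := norm_om
  rw [h, norm_zero] at this
  exact zero_ne_one this

theorem sec_om {z : ℂ} (hz : z ≠ 0) : sec (om * z) = sec z + 1 := by
  have h := sec_spec hz
  have h' := sec_spec (mul_ne_zero om_ne_zero hz)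
  refine PSec_unique h' ?_
  refine ⟨?_, ?_⟩
  · rw [RR_om, RR_om]; exact h.1
  · rw [show sec z + 1 + 2 = (sec z + 2) + 1 by ring, RR_om, RR_om]; exact h.2

theorem sec_max {z : ℂ} (hz : z ≠ 0) (m : ZMod 3) : RR m z ≤ RR (sec z) z := by
  have h := sec_spec hz
  have hc : ∀ k k' : ZMod 3, k' = k ∨ k' = k + 1 ∨ k' = k + 2 := by decide
  rcases hc (sec z) m with e | e | e
  · rw [e]
  · rw [e]; exact h.1
  · rw [e]; exact h.2.le

theorem three_sum (f : ZMod 3 → ℝ) (k m n : ZMod 3) (h1 : k ≠ m) (h2 : m ≠ n) (h3 : k ≠ n) :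
    f k + f m + f n = f 0 + f 1 + f 2 := by
  fin_cases k <;> fin_cases m <;> fin_cases n <;>
    first
    | exact absurd rfl h1
    | exact absurd rfl h2
    | exact absurd rfl h3
    | (change f 0 + f 1 + f 2 = f 0 + f 1 + f 2; ring)
    | (change f 0 + f 2 + f 1 = f 0 + f 1 + f 2; ring)
    | (change f 1 + f 0 + f 2 = f 0 + f 1 + f 2; ring)
    | (change f 1 + f 2 + f 0 = f 0 + f 1 + f 2; ring)
    | (change f 2 + f 0 + f 1 = f 0 + f 1 + f 2; ring)
    | (change f 2 + f 1 + f 0 = f 0 + f 1 + f 2; ring)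

/-- the key estimate -/
theorem sec_est {z : ℂ} {δ : ℝ} (k m n : ZMod 3) (h1 : k ≠ m) (h2 : m ≠ n) (h3 : k ≠ n)
    (ha : RR m z ≤ RR k z) (hb : RR n z ≤ RR k z) (hc : RR k z ≤ RR m z + 2 * δ)
    (hd : RR k z ≤ RR n z + 2 * δ) : ‖z‖ ≤ 3 * δ := by
  have hδ : 0 ≤ δ := by linarith
  have hsum : RR k z + RR m z + RR n z = 0 := by
    have hs := RR_sum z
    rw [three_sum (fun k => RR k z) k m n h1 h2 h3, hs]
  have hsq : RR k z ^ 2 + RR m z ^ 2 + RR n z ^ 2 = 3 / 2 * ‖z‖ ^ 2 := by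
    have hs := RR_sq z
    rw [three_sum (fun k => RR k z ^ 2) k m n h1 h2 h3, hs]
  generalize RR k z = a at *
  generalize RR m z = b at *
  generalize RR n z = c at *
  have hn : 0 ≤ ‖z‖ := norm_nonneg z
  generalize ‖z‖ = r at *
  have e1 : (a - b) ^ 2 ≤ 4 * δ ^ 2 := by nlinarith
  have e2 : (a - c) ^ 2 ≤ 4 * δ ^ 2 := by nlinarith
  have e3 : (b - c) ^ 2 ≤ 4 * δ ^ 2 := by
    have : |b - c| ≤ 2 * δ := by rw [abs_le]; constructor <;> linarith
    have h4 : (b - c) ^ 2 = |b - c| ^ 2 := (sq_abs _).symm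
    rw [h4]
    nlinarith [abs_nonneg (b - c)]
  have e4 : 3 * (a ^ 2 + b ^ 2 + c ^ 2) = (a - b) ^ 2 + (a - c) ^ 2 + (b - c) ^ 2 +
      (a + b + c) ^ 2 := by ring
  rw [hsum] at e4
  have e5 : r ^ 2 ≤ (3 * δ) ^ 2 := by nlinarith
  exact (abs_le_of_sq_le_sq' e5 (by linarith)).2

/-- the first nonzero coordinate of the vector number `j₀` -/
noncomputable def fnz {N : ℕ → ℕ} (j₀ : ℕ) (x : XX N) : ℂ :=
  if h : sInf {i : ℕ | ∃ h : i < N j₀, (x j₀ : EuclideanSpace ℂ (Fin (N j₀))) ⟨i, h⟩ ≠ 0} < N j₀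
  then (x j₀ : EuclideanSpace ℂ (Fin (N j₀)))
    ⟨sInf {i : ℕ | ∃ h : i < N j₀, (x j₀ : EuclideanSpace ℂ (Fin (N j₀))) ⟨i, h⟩ ≠ 0}, h⟩ else 0

theorem fnz_ne_zero {N : ℕ → ℕ} (j₀ : ℕ) (x : XX N) : fnz j₀ x ≠ 0 := by
  have hne : {i : ℕ | ∃ h : i < N j₀, (x j₀ : EuclideanSpace ℂ (Fin (N j₀))) ⟨i, h⟩ ≠ 0}.Nonempty := by
    by_contra hcon
    rw [Set.not_nonempty_iff_eq_empty] at hcon
    have hv : (x j₀ : EuclideanSpace ℂ (Fin (N j₀))) = 0 := by
      ext i
      by_contra hi
      have : (i : ℕ) ∈ {i : ℕ | ∃ h : i < N j₀,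
        (x j₀ : EuclideanSpace ℂ (Fin (N j₀))) ⟨i, h⟩ ≠ 0} := ⟨i.2, hi⟩
      rw [hcon] at this
      exact this
    have h1 := norm_eq_of_mem_sphere (x j₀)
    rw [hv, norm_zero] at h1
    exact zero_ne_one h1
  obtain ⟨h, h'⟩ := Nat.sInf_mem hne
  unfold fnz
  rw [dif_pos h]
  exact h'

theorem fnz_tt {N : ℕ → ℕ} (j j₀ : ℕ) (x : XX N) :
    fnz j₀ (tt j x) = (if j = j₀ then om else 1) * fnz j₀ x := by
  by_cases hj : j = j₀
  · subst hj
    rw [if_pos rfl]
    have hx : ∀ i, ((tt j x j : CSph (N j)) : EuclideanSpace ℂ (Fin (N j))) i =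
        om * (x j : EuclideanSpace ℂ (Fin (N j))) i := by
      intro i
      unfold tt
      rw [Function.update_self]
      rfl
    have hset : {i : ℕ | ∃ h : i < N j, (tt j x j : EuclideanSpace ℂ (Fin (N j))) ⟨i, h⟩ ≠ 0} =
        {i : ℕ | ∃ h : i < N j, (x j : EuclideanSpace ℂ (Fin (N j))) ⟨i, h⟩ ≠ 0} := by
      ext i
      simp only [Set.mem_ofPred_eq]
      constructor
      · rintro ⟨h, h'⟩
        refine ⟨h, ?_⟩
        rw [hx] at h'
        exact right_ne_zero_of_mul h'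
      · rintro ⟨h, h'⟩
        refine ⟨h, ?_⟩
        rw [hx]
        exact mul_ne_zero om_ne_zero h'
    unfold fnz
    simp only [hset]
    split_ifs with h
    · exact hx _
    · simp
  · rw [if_neg hj, one_mul]
    have hx : tt j x j₀ = x j₀ := by
      unfold tt
      rw [Function.update_of_ne (Ne.symm hj)]
    unfold fnz
    rw [hx]

open Classical in
/-- the label function -/
noncomputable def labf {N : ℕ → ℕ} (j₀ : ℕ) (g : XX N → ℂ) (x : XX N) : ZMod 3 :=
  if g x = 0 then sec (fnz j₀ x) else sec (g x)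

theorem e3_ne {X : Type} (l : X → ZMod 3) (x y z : X) (h : e3 l x y z ≠ 0) :
    l x ≠ l y ∧ l y ≠ l z ∧ l x ≠ l z := by
  have key : ∀ a b c : ZMod 3, ((b - a).valMinAbs + (c - b).valMinAbs - (c - a).valMinAbs) / 3 ≠ 0 →
      a ≠ b ∧ b ≠ c ∧ a ≠ c := by decide
  exact key _ _ _ h

theorem lab' : S_LAB := by
  intro N J j₀ g hg
  refine ⟨labf j₀ g, ?_, ?_⟩
  · intro j hj x
    have h := hg j hj x
    by_cases hx : g x = 0
    · have hx' : g (tt j x) = 0 := by rw [h, hx, mul_zero]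
      unfold labf
      rw [if_pos hx, if_pos hx', fnz_tt]
      split_ifs with e
      · exact sec_om (fnz_ne_zero j₀ x)
      · rw [one_mul, add_zero]
    · have hx' : g (tt j x) ≠ 0 := by
        rw [h]
        refine mul_ne_zero ?_ hx
        split_ifs
        · exact om_ne_zero
        · exact one_ne_zero
      unfold labf
      rw [if_neg hx, if_neg hx', h]
      split_ifs with e
      · exact sec_om hx
      · rw [one_mul, add_zero]
  · intro x y z δ he hxy hyz hxz
    have hδ : 0 ≤ δ := (norm_nonneg _).trans hxy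
    have t1 : ‖g y‖ ≤ ‖g x‖ + δ := by
      have := norm_sub_norm_le (g y) (g x)
      rw [norm_sub_rev] at this
      linarith
    have t1' : ‖g x‖ ≤ ‖g y‖ + δ := by
      have := norm_sub_norm_le (g x) (g y)
      linarith
    have t2 : ‖g z‖ ≤ ‖g y‖ + δ := by
      have := norm_sub_norm_le (g z) (g y)
      rw [norm_sub_rev] at this
      linarith
    have t2' : ‖g y‖ ≤ ‖g z‖ + δ := by
      have := norm_sub_norm_le (g y) (g z)
      linarith
    have t3 : ‖g z‖ ≤ ‖g x‖ + δ := by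
      have := norm_sub_norm_le (g z) (g x)
      rw [norm_sub_rev] at this
      linarith
    have t3' : ‖g x‖ ≤ ‖g z‖ + δ := by
      have := norm_sub_norm_le (g x) (g z)
      linarith
    by_cases hx : g x = 0
    · rw [hx, norm_zero] at t1 t3
      rw [hx, norm_zero]
      refine ⟨?_, ?_, ?_⟩ <;> linarith
    by_cases hy : g y = 0
    · rw [hy, norm_zero] at t1' t2
      rw [hy, norm_zero]
      refine ⟨?_, ?_, ?_⟩ <;> linarith
    by_cases hz : g z = 0
    · rw [hz, norm_zero] at t2' t3'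
      rw [hz, norm_zero]
      refine ⟨?_, ?_, ?_⟩ <;> linarith
    obtain ⟨n1, n2, n3⟩ := e3_ne _ x y z he
    unfold labf at n1 n2 n3
    rw [if_neg hx, if_neg hy] at n1
    rw [if_neg hy, if_neg hz] at n2
    rw [if_neg hx, if_neg hz] at n3
    have mx := sec_max hx
    have my := sec_max hy
    have mz := sec_max hz
    have d1 : ∀ k, |RR k (g x) - RR k (g y)| ≤ δ := fun k => by
      rw [RR_sub]; exact (RR_le k _).trans hxy
    have d2 : ∀ k, |RR k (g y) - RR k (g z)| ≤ δ := fun k => by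
      rw [RR_sub]; exact (RR_le k _).trans hyz
    have d3 : ∀ k, |RR k (g x) - RR k (g z)| ≤ δ := fun k => by
      rw [RR_sub]; exact (RR_le k _).trans hxz
    generalize sec (g x) = k at *
    generalize sec (g y) = m at *
    generalize sec (g z) = n at *
    refine ⟨?_, ?_, ?_⟩
    · have a1 := abs_le.1 (d1 k)
      have a2 := abs_le.1 (d1 m)
      have a3 := abs_le.1 (d3 k)
      have a4 := abs_le.1 (d3 n)
      have b1 := my k
      have b2 := mz k
      exact sec_est k m n n1 n2 n3 (mx m) (mx n) (by linarith) (by linarith)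
    · have a1 := abs_le.1 (d1 k)
      have a2 := abs_le.1 (d1 m)
      have a3 := abs_le.1 (d2 m)
      have a4 := abs_le.1 (d2 n)
      have b1 := mx m
      have b2 := mz m
      exact sec_est m k n n1.symm n3 n2 (my k) (my n) (by linarith) (by linarith)
    · have a1 := abs_le.1 (d3 k)
      have a2 := abs_le.1 (d3 n)
      have a3 := abs_le.1 (d2 m)
      have a4 := abs_le.1 (d2 n)
      have b1 := mx n
      have b2 := my n
      exact sec_est n k m n3.symm n1 n2.symm (mz k) (mz m) (by linarith) (by linarith)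

end LABAux

theorem lab : S_LAB := LABAux.lab'

end Pool.OPP
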