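import Mathlib
import Pool.Agent.H7.OPP.Stmts
import Pool.Agent.H2.OPP.KCO

/-!
# Module TOP: the topological data of an anti-automorphism
-/

set_option autoImplicit false

open scoped Topology ComplexConjugate Uniformity

namespace Pool.OPP

theorem TOP_om_pow (a b : ZMod 3) : om ^ (a + b).val = om ^ a.val * om ^ b.val := by
  have h3 := om_pow_three
  rw [← pow_add, ZMod.val_add]
  conv_rhs => rw [← Nat.div_add_mod (a.val + b.val) 3]
  rw [pow_add, pow_mul, h3, one_pow, one_mul]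

theorem TOP_ip (hA : SAct) (γ : ℕ → ZMod 3) (ξ ξ' : Fin (hh + 1) → II → ℂ) (v : Fin (hh + 1)) :
    ip (av γ ξ v) (av γ ξ' v) = ip (ξ v) (ξ' v) := by
  obtain ⟨-, -, -, -, -, -, -, -, hn, -⟩ := hA
  unfold ip av
  refine Finset.sum_congr rfl fun i _ => ?_
  have h1 := hn γ (i, ∅)
  have h2 : chi γ (i, ∅) * conj (chi γ (i, ∅)) = 1 := by
    rw [Complex.mul_conj, Complex.normSq_eq_norm_sq, h1]
    norm_num
  rw [map_mul, Complex.conj_conj]
  linear_combination (conj (ξ v i) * ξ' v i) * h2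

theorem TOP_kk (hA : SAct) (γ : ℕ → ZMod 3) (ξ ξ' : Fin (hh + 1) → II → ℂ) :
    kk (av γ ξ) (av γ ξ') = kk ξ ξ' := by
  unfold kk
  refine Finset.prod_congr rfl fun v _ => ?_
  rw [TOP_ip hA]

theorem TOP_kk_norm (ξ ξ' : Fin (hh + 1) → II → ℂ) : ‖kk ξ ξ'‖ = 1 := by
  unfold kk
  rw [norm_prod]
  refine Finset.prod_eq_one fun v _ => ?_
  rw [norm_pow, KCO_ph_norm, one_pow]

theorem sTop (hOrb : SOrb) (hFrx : SFrx) (hFrq : SFrq) (hVun : SVun) (hVct : SVct) (hKco : SKco)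
    (hZcp : SZcp) (hTyp : STyp) (hRr1 : SRr1) (hA : SAct) (hUnc : SUnc) : STop := by
  intro θ
  have hZ : ∀ γ, ∀ x ∈ Zst θ, act γ x ∈ Zst θ := (hRr1 θ).2.2.2.1
  obtain ⟨-, -, -, -, htt, -, -, -, -, hc0, hcadd, -⟩ := id hA
  obtain ⟨r, hr⟩ := hOrb ((Fin (hh + 1) → II → ℂ) × (Fin 3 → ℂ))
    (fun γ y => (av γ y.1, ac γ y.2))
    (by
      rintro ⟨ξ, c⟩
      refine Prod.ext ?_ ?_
      · funext v i
        change conj (chi 0 (i, ∅)) * ξ v i = ξ v i
        rw [hc0]; simp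
      · funext k
        change om ^ ((0 : ℕ → ZMod 3) 0).val * c k = c k
        simp)
    (by
      rintro γ γ' ⟨ξ, c⟩
      refine Prod.ext ?_ ?_
      · funext v i
        change conj (chi (γ + γ') (i, ∅)) * ξ v i =
          conj (chi γ (i, ∅)) * (conj (chi γ' (i, ∅)) * ξ v i)
        rw [hcadd, map_mul]; ring
      · funext k
        change om ^ ((γ + γ') 0).val * c k = om ^ (γ 0).val * (om ^ (γ' 0).val * c k)
        rw [Pi.add_apply, TOP_om_pow]; ring)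
    (Zst θ) hZ (fun x y => IsFrame θ x y.1 y.2)
    (fun γ x hx y hy => (hFrq θ x hx γ y.1 y.2 hy).1)
    (fun x hx => by
      obtain ⟨ξ, c, h⟩ := hFrx θ x hx
      exact ⟨(ξ, c), h⟩)
  have hD : ∀ γ, ∀ x ∈ Zst θ, (VV θ (act γ x) (r (act γ x)).1 (r (act γ x)).2).det =
      om ^ (γ 0).val * (VV θ x (r x).1 (r x).2).det := by
    intro γ x hx
    rw [(hr x hx).2 γ]
    exact (hFrq θ x hx γ _ _ (hr x hx).1).2
  refine ⟨{
    Z := Zst θ
    Z_inv := ?_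
    D := fun x => (VV θ x (r x).1 (r x).2).det
    norm_D := fun x hx => hVun θ x hx _ _ (hr x hx).1
    D_zero := ?_
    D_pos := ?_
    kf := fun x y => kk (r x).1 (r y).1
    norm_kf := fun x _ y _ => TOP_kk_norm _ _
    kf_inv := ?_
    D_kf := ?_
    kf_kf := ?_
    approx := ?_ }⟩
  · intro j x hx
    rw [htt]
    exact hZ _ x hx
  · intro x hx
    simp only [htt]
    rw [hD _ x hx, Pi.single_eq_same]
    rw [show (1 : ZMod 3).val = 1 from rfl, pow_one]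
  · intro j hj x hx
    simp only [htt]
    rw [hD _ x hx, Pi.single_eq_of_ne (Ne.symm hj)]
    rw [show (0 : ZMod 3).val = 0 from rfl, pow_zero, one_mul]
  · intro j x hx y hy
    simp only [htt]
    rw [(hr x hx).2, (hr y hy).2]
    exact TOP_kk hA _ _ _
  · intro ε hε
    obtain ⟨n, δ, hδ, h⟩ := hVct θ ε hε
    refine ⟨_, hUnc.1 n δ hδ, ?_⟩
    intro x hx y hy hxy
    exact h x hx y hy hxy _ _ _ _ (hr x hx).1 (hr y hy).1
  · intro ε hε
    obtain ⟨n, δ, hδ, h⟩ := hKco θ ε hε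
    refine ⟨_, hUnc.1 n δ hδ, ?_⟩
    intro x hx y hy z hz hxy hyz hxz
    exact h x hx y hy z hz hxy hyz hxz _ _ _ _ _ _ (hr x hx).1 (hr y hy).1 (hr z hz).1
  · intro V hV
    obtain ⟨n, δ, hδ, h⟩ := hUnc.2.1 V hV
    obtain ⟨ε, hε, h2⟩ := hZcp θ n δ hδ
    obtain ⟨J, ι, hι, ty, g, η, g1, g2, g3, g4, g5, g6, g7⟩ := hTyp θ ε hε
    refine ⟨J, ι, hι, ty, g, η, g1, g2, g3, g4, g5, g6, ?_⟩
    intro x hx
    obtain ⟨z, hz, hxz⟩ := h2 x (g7 x hx)
    exact ⟨z, hz, h x z hxz⟩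

end Pool.OPP
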