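import Mathlib
import Pool.Agent.H91.OPP.TTB

/-!
# Module TTF: the product Borsuk-Ulam theorem modulo 3 from its modules
-/

set_option autoImplicit false

namespace Pool.OPP

open scoped Uniformity

namespace TTFAux

theorem EE_congr {X : Type} (K : Set X) (ψ₁ ψ₂ : List X → ℤ) :
    ∀ (labs : List (ℕ × (X → ZMod 3))),
      ((∀ p ∈ labs, ∃ x ∈ K, ∃ y ∈ K, ∃ z ∈ K, e3 p.2 x y z ≠ 0) →
        ∀ l : List X, (∀ x ∈ l, x ∈ K) → (3 : ℤ) ∣ ψ₁ l - ψ₂ l) →
      ∀ l : List X, (∀ x ∈ l, x ∈ K) → (3 : ℤ) ∣ EE labs ψ₁ l - EE labs ψ₂ l := by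
  intro labs
  induction labs with
  | nil => intro h l hl; exact h (by simp) l hl
  | cons p rest ih =>
    intro h l hl
    change (3 : ℤ) ∣ cup2 (e3 p.2) (EE rest ψ₁) l - cup2 (e3 p.2) (EE rest ψ₂) l
    match l, hl with
    | [], _ => simp [cup2]
    | [x], _ => simp [cup2]
    | [x, y], _ => simp [cup2]
    | x :: y :: z :: l', hl =>
      change (3 : ℤ) ∣ e3 p.2 x y z * EE rest ψ₁ (z :: l') - e3 p.2 x y z * EE rest ψ₂ (z :: l')
      rw [← mul_sub]
      by_cases he : e3 p.2 x y z = 0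
      · rw [he, zero_mul]; exact dvd_zero _
      · refine Dvd.dvd.mul_left (ih ?_ (z :: l') ?_) _
        · intro h2 l'' hl''
          refine h ?_ l'' hl''
          intro p' hp'
          rcases List.mem_cons.1 hp' with rfl | hp'
          · exact ⟨x, hl x (by simp), y, hl y (by simp), z, hl z (by simp), he⟩
          · exact h2 p' hp'
        · intro w hw
          exact hl w (List.mem_cons_of_mem _ (List.mem_cons_of_mem _ hw))

theorem EE_nor (h3 : S_CUPN) {X : Type} (labs : List (ℕ × (X → ZMod 3))) (φ : List X → ℤ)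
    (hφ : φ ∈ NorS X) : EE labs φ ∈ NorS X := by
  induction labs with
  | nil => exact hφ
  | cons p rest ih => exact (h3 X p.2 (EE rest φ) ih).1

theorem EE_nil {X : Type} (labs : List (ℕ × (X → ZMod 3))) (φ : List X → ℤ)
    (hφ : φ [] = 0) : EE labs φ [] = 0 := by
  cases labs with
  | nil => exact hφ
  | cons p rest => rfl

theorem EE_del (h2 : S_CUPD) {X : Type} (labs : List (ℕ × (X → ZMod 3))) (φ : List X → ℤ)
    (hφ : φ [] = 0) : del (EE labs φ) = EE labs (del φ) := by
  induction labs with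
  | nil => rfl
  | cons p rest ih =>
    change del (cup2 (e3 p.2) (EE rest φ)) = cup2 (e3 p.2) (EE rest (del φ))
    rw [← ih]
    funext k
    exact (h2 X p.2).1 (EE rest φ) (EE_nil rest φ hφ) k

theorem EE_pb (h2 : S_CUPD) {X : Type} (t : X → X) (labs : List (ℕ × (X → ZMod 3)))
    (φ : List X → ℤ) (h : ∀ p ∈ labs, ∃ c : ZMod 3, ∀ x, p.2 (t x) = p.2 x + c) :
    pb t (EE labs φ) = EE labs (pb t φ) := by
  induction labs with
  | nil => rfl
  | cons p rest ih =>
    change pb t (cup2 (e3 p.2) (EE rest φ)) = cup2 (e3 p.2) (EE rest (pb t φ))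
    obtain ⟨c, hc⟩ := h p (by simp)
    rw [((h2 X p.2).2.2.2 t c hc (EE rest φ)).1,
      ih (fun p' hp' => h p' (List.mem_cons_of_mem _ hp'))]

open Classical in
/-- the 1-cochain -/
noncomputable def bet {X : Type} (bt : X → X → ZMod 3) : List X → ℤ
  | [x, y] => if x = y then 0 else ((bt x y).val : ℤ)
  | _ => 0

theorem bet_nor {X : Type} (bt : X → X → ZMod 3) : bet bt ∈ NorS X := by
  refine ⟨rfl, ?_⟩
  intro l₁ x l₂
  match l₁, l₂ with
  | [], [] => simp [bet]
  | [], y :: l₂ => rfl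
  | [a], _ => rfl
  | a :: b :: l₁, l₂ =>
    simp only [List.cons_append]
    cases h : l₁ ++ x :: x :: l₂ with
    | nil => simp at h
    | cons c l => rfl

theorem bet_pb {X : Type} (bt : X → X → ZMod 3) (t : X → X) (ht : Function.Injective t)
    (h : ∀ x y, bt (t x) (t y) = bt x y) : pb t (bet bt) = bet bt := by
  classical
  funext k
  match k with
  | [] => rfl
  | [x] => rfl
  | [x, y] =>
    change (if t x = t y then 0 else ((bt (t x) (t y)).val : ℤ)) =
      if x = y then 0 else ((bt x y).val : ℤ)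
    rw [h]
    by_cases hxy : x = y
    · rw [if_pos hxy, if_pos (by rw [hxy])]
    · rw [if_neg hxy, if_neg (fun h => hxy (ht h))]
  | x :: y :: z :: k => rfl

theorem del_bet_long {X : Type} (bt : X → X → ZMod 3) (x y z w : X) (l : List X) :
    del (bet bt) (x :: y :: z :: w :: l) = 0 := by
  have h0 : (fun l' => bet bt (x :: y :: z :: l')) = fun _ => (0 : ℤ) := by
    funext l'; rfl
  have h1 : del (bet bt) (x :: y :: z :: w :: l) = bet bt (y :: z :: w :: l) -
    (bet bt (x :: z :: w :: l) - (bet bt (x :: y :: w :: l) -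
      del (fun l' => bet bt (x :: y :: z :: l')) (w :: l))) := rfl
  rw [h1, h0, del_cons_zero]
  rfl

theorem tt_inj {N : ℕ → ℕ} (j : ℕ) : Function.Injective (tt (N := N) j) := by
  intro x y h
  funext k
  have hk := congrFun h k
  by_cases e : k = j
  · subst e
    unfold tt at hk
    rw [Function.update_self, Function.update_self] at hk
    have h1 := congrArg (fun v : CSph (N k) => (v : EuclideanSpace ℂ (Fin (N k)))) hk
    simp only [coe_rot] at h1
    have hom : om ≠ 0 := by
      intro h0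
      have := norm_om
      rw [h0, norm_zero] at this
      exact zero_ne_one this
    exact Subtype.ext (smul_right_injective _ hom h1)
  · unfold tt at hk
    rwa [Function.update_of_ne e, Function.update_of_ne e] at hk

theorem count_front {ι : Type} [Fintype ι] (ty : ι → ℕ) (j : ℕ) :
    ((Finset.univ : Finset ι).toList.map ty).count j = Fintype.card {i // ty i = j} := by
  classical
  rw [Fintype.card_subtype, List.count, List.countP_map]
  rw [show ((fun x => x == j) ∘ ty) = fun i => decide (ty i = j) by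
    funext i; exact beq_eq_decide _ _]
  rw [← Multiset.coe_countP, Finset.coe_toList, Multiset.countP_eq_card_filter]
  simp only [Finset.card, Finset.filter_val]

end TTFAux

open TTFAux in
theorem ttf (h1 : S_IND) (h2 : S_CUPD) (h3 : S_CUPN) (h4 : S_LAB) (h5 : S_UNI) : TTStmt := by
  intro N J ι _ ty hN1 hN0 h0J hty hcard g hgc hgt l0 hl0 U η hU hη bt hbt hcon
  classical
  -- labels
  choose lb hlb1 hlb2 using fun i => h4 N J (ty i) (g i) (fun j hj x => hgt i j hj x)
  obtain ⟨front, hfront⟩ : ∃ front, front =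
    (Finset.univ : Finset ι).toList.map (fun i => ((ty i, lb i) : ℕ × (XX N → ZMod 3))) := ⟨_, rfl⟩
  have hfr : ∀ p ∈ front, ∃ i, p = (ty i, lb i) := by
    intro p hp
    rw [hfront, List.mem_map] at hp
    obtain ⟨i, -, hi⟩ := hp
    exact ⟨i, hi.symm⟩
  have hfr' : ∀ i, (ty i, lb i) ∈ front := by
    intro i
    rw [hfront, List.mem_map]
    exact ⟨i, by simp, rfl⟩
  have hok : ∀ p ∈ front ++ [(0, l0)], LabOK N J p := by
    intro p hp
    rcases List.mem_append.1 hp with hp | hp
    · obtain ⟨i, rfl⟩ := hfr p hp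
      exact ⟨(hty i).1, fun j hj x => hlb1 i j hj x⟩
    · rw [List.mem_singleton] at hp
      subst hp
      exact ⟨h0J, fun j hj x => hl0 j hj x⟩
  have hcnt : ∀ j, 2 * ((front ++ [(0, l0)]).map Prod.fst).count j + 1 ≤ N j := by
    intro j
    have hm : (front.map Prod.fst) = (Finset.univ : Finset ι).toList.map ty := by
      rw [hfront, List.map_map]; rfl
    rw [List.map_append, List.count_append, hm, count_front]
    by_cases hj : j = 0
    · subst hj
      have hz : Fintype.card {i // ty i = 0} = 0 := by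
        rw [Fintype.card_eq_zero_iff]
        exact ⟨fun i => (hty i.1).2 i.2⟩
      rw [hz]
      simpa using hN0
    · have : (List.map Prod.fst [((0 : ℕ), l0)]).count j = 0 := by
        simp [Ne.symm hj]
      rw [this, add_zero]
      exact hcard j
  -- smallness
  obtain ⟨δ, hδ⟩ : ∃ δ : ℝ, δ = η / 5 := ⟨_, rfl⟩
  have hδ0 : 0 < δ := by rw [hδ]; positivity
  choose V hV1 hV2 using fun i => (h5 N).2 (g i) (hgc i) δ hδ0
  have hW : U ∩ ⋂ i, V i ∈ 𝓤 (XX N) :=
    Filter.inter_mem hU (Filter.iInter_mem.2 hV1)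
  obtain ⟨ε, hε, hεW⟩ := (h5 N).1 _ hW
  obtain ⟨C, hC1, hC2, hC3⟩ := h1 N J (front ++ [(0, l0)]) hok hcnt ε hε
  -- cochains
  have hone : (one0 : List (XX N) → ℤ) ∈ NorS (XX N) := (h3 (XX N) l0 0 (NorS (XX N)).zero_mem).2.2.2.1
  have hφ1 : EE front (cup2 (e3 l0) one0) ∈ NorS (XX N) :=
    EE_nor h3 front _ (h3 (XX N) l0 one0 hone).1
  have hφ2 : EE front (bet bt) ∈ NorS (XX N) := EE_nor h3 front _ (bet_nor bt)
  obtain ⟨k, hk⟩ := hC3 ⟨EE front (cup2 (e3 l0) one0), hφ1⟩ (by
    change EE front (cup2 (e3 l0) one0) = EE (front ++ [(0, l0)]) one0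
    unfold EE
    rw [List.foldr_append]
    rfl)
  have hdel : del (EE front (bet bt)) = EE front (del (bet bt)) := EE_del h2 front _ rfl
  -- congruence on small tuples
  have hcong : ∀ l ∈ {l : List (XX N) | ∀ x ∈ l, ∀ y ∈ l, ∀ j, dist (x j) (y j) ≤ ε},
      (3 : ℤ) ∣ EE front (cup2 (e3 l0) one0) l - EE front (del (bet bt)) l := by
    intro l hl
    refine EE_congr {x | x ∈ l} _ _ front ?_ l (fun x hx => hx)
    intro hact l' hl'
    have hsm : ∀ x ∈ l, ∀ y ∈ l, (x, y) ∈ U ∩ ⋂ i, V i := fun x hx y hy =>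
      hεW x y (hl x hx y hy)
    have hgs : ∀ i, ∀ x ∈ l, ‖g i x‖ < η := by
      intro i w hw
      obtain ⟨x, hx, y, hy, z, hz, he⟩ := hact _ (hfr' i)
      have hd : ∀ a ∈ l, ∀ b ∈ l, ‖g i a - g i b‖ ≤ δ := fun a ha b hb =>
        hV2 i a b (Set.mem_iInter.1 (hsm a ha b hb).2 i)
      have hxx := (hlb2 i x y z δ he (hd x hx y hy) (hd y hy z hz) (hd x hx z hz)).1
      have h6 : ‖g i w‖ ≤ ‖g i x‖ + δ := by
        have h7 := norm_sub_norm_le (g i w) (g i x)
        have h8 := hd w hw x hx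
        linarith
      have : 5 * δ = η := by rw [hδ]; ring
      linarith
    have hcy : ∀ x ∈ l, ∀ y ∈ l, ∀ z ∈ l,
        bt x y + bt y z - bt x z = (e3 l0 x y z : ZMod 3) := by
      intro x hx y hy z hz
      exact hcon x y z (hsm x hx y hy).1 (hsm y hy z hz).1 (hsm x hx z hz).1
        (fun i => ⟨hgs i x hx, hgs i y hy, hgs i z hz⟩)
    have hdiag : ∀ x ∈ l, bt x x = 0 := by
      intro x hx
      have h6 := hcy x hx x hx x hx
      have h7 : e3 l0 x x x = 0 := by
        unfold e3 la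
        rw [sub_self]
        rfl
      rw [h7] at h6
      simpa using h6
    have hbt : ∀ x ∈ l, ∀ y ∈ l, ((bet bt [x, y] : ℤ) : ZMod 3) = bt x y := by
      intro x hx y hy
      change (((if x = y then 0 else ((bt x y).val : ℤ)) : ℤ) : ZMod 3) = bt x y
      by_cases hxy : x = y
      · subst hxy
        rw [if_pos rfl, hdiag x hx]
        rfl
      · rw [if_neg hxy]
        simp
    match l', hl' with
    | [], _ => simp [cup2, del]
    | [x], _ => simp [cup2, del, bet]
    | [x, y], _ => simp [cup2, del, bet]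
    | [x, y, z], hl' =>
      have hx : x ∈ l := hl' x (by simp)
      have hy : y ∈ l := hl' y (by simp)
      have hz : z ∈ l := hl' z (by simp)
      have e1 : cup2 (e3 l0) one0 [x, y, z] = e3 l0 x y z := by
        change e3 l0 x y z * 1 = _
        ring
      have e2 : del (bet bt) [x, y, z] = bet bt [y, z] - (bet bt [x, z] - (bet bt [x, y] - 0)) := rfl
      rw [e1, e2]
      have : (3 : ℤ) = ((3 : ℕ) : ℤ) := rfl
      rw [this, ← ZMod.intCast_zmod_eq_zero_iff_dvd]
      push_cast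
      rw [← hcy x hx y hy z hz, hbt y hy z hz, hbt x hx z hz, hbt x hx y hy]
      ring
    | x :: y :: z :: w :: l', _ =>
      rw [del_bet_long]
      have : cup2 (e3 l0) one0 (x :: y :: z :: w :: l') = 0 := by
        change e3 l0 x y z * 0 = 0
        ring
      rw [this]
      simp
  -- the quotient cochain
  have hψ : (fun l => (EE front (cup2 (e3 l0) one0) l - EE front (del (bet bt)) l) / 3) ∈
      NorS (XX N) := by
    have hd : EE front (del (bet bt)) ∈ NorS (XX N) := by
      rw [← hdel]; exact ⟨rfl, hφ2.2.del⟩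
    refine ⟨?_, ?_⟩
    · simp [hφ1.1, hd.1]
    · intro l₁ x l₂
      simp [hφ1.2 l₁ x l₂, hd.2 l₁ x l₂]
  have hdiff : C (⟨EE front (cup2 (e3 l0) one0), hφ1⟩ - dN (XX N) ⟨EE front (bet bt), hφ2⟩ -
      (3 : ℤ) • ⟨_, hψ⟩) = 0 := by
    apply hC2
    intro l hl
    have h6 := hcong l hl
    have h7 := Int.mul_ediv_cancel' h6
    change EE front (cup2 (e3 l0) one0) l - del (EE front (bet bt)) l -
      (3 : ℤ) • ((EE front (cup2 (e3 l0) one0) l - EE front (del (bet bt)) l) / 3) = 0
    rw [hdel, smul_eq_mul, h7]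
    ring
  rw [map_sub, map_sub, map_zsmul, hk] at hdiff
  -- the boundary
  obtain ⟨P, Q, Y, hP, -⟩ := hC1
  have hinv : ∀ j : {j : ℕ // j ∈ J}, TN N J j ⟨EE front (bet bt), hφ2⟩ =
      ⟨EE front (bet bt), hφ2⟩ := by
    intro j
    apply Subtype.ext
    change pb (tt (j : ℕ)) (EE front (bet bt)) = EE front (bet bt)
    rw [EE_pb h2 (tt (j : ℕ)) front (bet bt), bet_pb bt _ (tt_inj _) (hbt j.1 j.2)]
    intro p hp
    obtain ⟨i, rfl⟩ := hfr p hp
    exact ⟨_, fun x => hlb1 i j.1 j.2 x⟩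
  have hbd := hP ⟨EE front (bet bt), hφ2⟩
  have hNm : ∀ j : {j : ℕ // j ∈ J}, Nm (TN N J j) ⟨EE front (bet bt), hφ2⟩ =
      (3 : ℤ) • ⟨EE front (bet bt), hφ2⟩ := by
    intro j
    change (⟨EE front (bet bt), hφ2⟩ : NC (XX N)) + TN N J j ⟨EE front (bet bt), hφ2⟩ +
      TN N J j (TN N J j ⟨EE front (bet bt), hφ2⟩) = _
    rw [hinv, hinv]
    rw [show (3 : ℤ) = 1 + 1 + 1 by norm_num, add_smul, add_smul, one_smul]
  have hsum : C (dN (XX N) ⟨EE front (bet bt), hφ2⟩) =
      3 * ∑ j, P j ⟨EE front (bet bt), hφ2⟩ := by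
    rw [hbd, Finset.mul_sum]
    refine Finset.sum_congr rfl fun j _ => ?_
    rw [hNm, map_zsmul, smul_eq_mul]
  rw [hsum, smul_eq_mul] at hdiff
  omega

end Pool.OPP
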