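import Mathlib
import Pool.Agent.H7.OPP.Stmts

/-!
# Module ZCP: a small off-diagonal part forces closeness to `Z_0`
-/

set_option autoImplicit false

open scoped Topology ComplexConjugate Uniformity

namespace Pool.OPP

theorem ZCP_bv (s v : JI) : (bv s : JI → ℂ) v = if v = s then 1 else 0 := by
  unfold bv
  rw [lp.single_apply]
  by_cases h : v = s
  · subst h; simp
  · simp [h]

theorem ZCP_JJ (u : JI) : u ∈ JJ 0 ↔ u.2 = ∅ := by
  unfold JJ
  rw [Finset.mem_product]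
  simp

theorem ZCP_PP (hD : SDia) (ξ : HH) :
    PP 0 ξ = ∑ i : II, (ξ : JI → ℂ) (i, ∅) • bv (i, ∅) := by
  obtain ⟨-, -, hP, -⟩ := hD
  ext u
  rw [hP, lp.coeFn_sum, Finset.sum_apply]
  have h1 : ∀ i : II, ((((ξ : JI → ℂ) (i, ∅) • bv (i, ∅) : HH)) : JI → ℂ) u
      = if u = (i, ∅) then (ξ : JI → ℂ) (i, ∅) else 0 := by
    intro i
    rw [lp.coeFn_smul, Pi.smul_apply, ZCP_bv]
    split_ifs <;> simp
  simp_rw [h1]
  obtain ⟨a, T⟩ := u
  by_cases hT : T = ∅
  · subst hT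
    rw [if_pos ((ZCP_JJ _).2 rfl)]
    simp
  · rw [if_neg (fun h => hT ((ZCP_JJ _).1 h))]
    symm
    refine Finset.sum_eq_zero fun i _ => ?_
    rw [if_neg]
    intro h
    exact hT (congrArg Prod.snd h)

theorem ZCP_off (hD : SDia) (a : BH)
    (h : ∀ i : II, a (bv (i, ∅)) - PP 0 (a (bv (i, ∅))) = 0) : PP 0 * a * PP 0 = a * PP 0 := by
  ext1 ξ
  change PP 0 (a (PP 0 ξ)) = a (PP 0 ξ)
  rw [ZCP_PP hD ξ, map_sum, map_sum]
  refine Finset.sum_congr rfl fun i _ => ?_
  rw [map_smul, map_smul]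
  congr 1
  exact (sub_eq_zero.1 (h i)).symm

theorem ZCP_mem (hT : STh) (hD : SDia) (hG : SGen) (θ : Anti) (x : SS)
    (h : ∀ (g : Gx) (i : II),
      θ.th (gen g) x (bv (i, ∅)) - PP 0 (θ.th (gen g) x (bv (i, ∅))) = 0) : x ∈ Zst θ := by
  intro g
  have hP := hD.2.2.2.2.2.1 0
  have h1 := ZCP_off hD (θ.th (gen g) x) (h g)
  obtain ⟨g', hg'⟩ := hG.2.1 g
  have h2 := ZCP_off hD (θ.th (gen g') x) (h g')
  have h3 : θ.th (gen g') x = star (θ.th (gen g) x) := by
    rw [← hg', ((hT θ).1 (gen g) (hG.1 g).2).2.2.1]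
    rfl
  rw [h3] at h2
  have h4 := congrArg star h2
  rw [star_mul, star_mul, star_mul, star_star, hP.1, ← mul_assoc] at h4
  rw [← h1, h4]

theorem sZcp (hT : STh) (hD : SDia) (hG : SGen) : SZcp := by
  intro θ n δ hδ
  classical
  -- the off-diagonal parts
  obtain ⟨off, hoff⟩ : ∃ off : Gx → II → SS → HH, off = fun g i x =>
    θ.th (gen g) x (bv (i, ∅)) - PP 0 (θ.th (gen g) x (bv (i, ∅))) := ⟨_, rfl⟩
  have hc : ∀ g i, Continuous (off g i) := by
    intro g i
    rw [hoff]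
    have h1 : Continuous fun x => θ.th (gen g) x (bv (i, ∅)) :=
      (ContinuousLinearMap.apply ℂ HH (bv (i, ∅))).continuous.comp (θ.th (gen g)).continuous
    exact h1.sub ((PP 0).continuous.comp h1)
  have hFc : Continuous fun x => ∑ g : Gx, ∑ i : II, ‖off g i x‖ :=
    continuous_finsetSum _ fun g _ => continuous_finsetSum _ fun i _ => (hc g i).norm
  -- the open set
  have hO : IsOpen {x : SS | ∃ z ∈ Zst θ, Close n δ x z} := by
    have : {x : SS | ∃ z ∈ Zst θ, Close n δ x z} = ⋃ z ∈ Zst θ, {x : SS | Close n δ x z} := by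
      ext x
      simp
    rw [this]
    refine isOpen_biUnion fun z _ => ?_
    have h2 : {x : SS | Close n δ x z} = ⋂ j ∈ Finset.range n,
        {x : SS | ‖(x j : EuclideanSpace ℂ (Fin (NN j))) - (z j : EuclideanSpace ℂ (Fin (NN j)))‖ < δ} := by
      ext x
      simp [Close]
    rw [h2]
    refine isOpen_biInter_finset fun j _ => ?_
    refine isOpen_lt ?_ continuous_const
    exact ((continuous_subtype_val.comp (continuous_apply j)).sub continuous_const).norm
  have hK : IsCompact {x : SS | ∃ z ∈ Zst θ, Close n δ x z}ᶜ := hO.isClosed_compl.isCompact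
  have hpos : ∀ x ∈ {x : SS | ∃ z ∈ Zst θ, Close n δ x z}ᶜ, 0 < ∑ g : Gx, ∑ i : II, ‖off g i x‖ := by
    intro x hx
    by_contra hcon
    have h0 : ∑ g : Gx, ∑ i : II, ‖off g i x‖ = 0 :=
      le_antisymm (not_lt.1 hcon)
        (Finset.sum_nonneg fun g _ => Finset.sum_nonneg fun i _ => norm_nonneg _)
    rw [Finset.sum_eq_zero_iff_of_nonneg
      (fun g _ => Finset.sum_nonneg fun i _ => norm_nonneg _)] at h0
    have hz : x ∈ Zst θ := by
      refine ZCP_mem hT hD hG θ x fun g i => ?_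
      have h1 := h0 g (Finset.mem_univ g)
      rw [Finset.sum_eq_zero_iff_of_nonneg (fun i _ => norm_nonneg _)] at h1
      have h2 := h1 i (Finset.mem_univ i)
      rw [norm_eq_zero, hoff] at h2
      exact h2
    exact hx ⟨x, hz, fun j _ => by simpa using hδ⟩
  rcases Set.eq_empty_or_nonempty ({x : SS | ∃ z ∈ Zst θ, Close n δ x z}ᶜ) with he | hne
  · refine ⟨1, one_pos, fun x _ => ?_⟩
    have : x ∈ {x : SS | ∃ z ∈ Zst θ, Close n δ x z} := by
      by_contra h
      have h' : x ∈ ({x : SS | ∃ z ∈ Zst θ, Close n δ x z}ᶜ) := h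
      rw [he] at h'
      exact h'
    exact this
  · obtain ⟨x₀, hx₀, hmin⟩ := hK.exists_isMinOn hne hFc.continuousOn
    have hm := hpos x₀ hx₀
    obtain ⟨m, hmm⟩ : ∃ m, m = ∑ g : Gx, ∑ i : II, ‖off g i x₀‖ := ⟨_, rfl⟩
    rw [← hmm] at hm
    have hcard : (0 : ℝ) < (Fintype.card Gx : ℝ) * (Fintype.card II : ℝ) + 1 := by positivity
    refine ⟨m / ((Fintype.card Gx : ℝ) * (Fintype.card II : ℝ) + 1), div_pos hm hcard,
      fun x hx => ?_⟩
    by_contra h
    have hx' : x ∈ ({x : SS | ∃ z ∈ Zst θ, Close n δ x z}ᶜ) := h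
    have h1 := isMinOn_iff.1 hmin x hx'
    rw [← hmm] at h1
    have h2 : ∑ g : Gx, ∑ i : II, ‖off g i x‖ ≤ ∑ g : Gx, ∑ i : II,
        m / ((Fintype.card Gx : ℝ) * (Fintype.card II : ℝ) + 1) := by
      refine Finset.sum_le_sum fun g _ => Finset.sum_le_sum fun i _ => ?_
      rw [hoff]
      exact (hx g i).le
    rw [Finset.sum_const, Finset.sum_const, Finset.card_univ, Finset.card_univ, nsmul_eq_mul,
      nsmul_eq_mul, ← mul_assoc] at h2
    have h3 : (Fintype.card Gx : ℝ) * (Fintype.card II : ℝ) *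
        (m / ((Fintype.card Gx : ℝ) * (Fintype.card II : ℝ) + 1)) < m := by
      rw [mul_div_assoc', div_lt_iff₀ hcard]
      nlinarith
    linarith

end Pool.OPP
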